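import Pool.Agent.Run7.h787.ST.Iface

/-!
# Stark project, piece CLS
-/

set_option autoImplicit false

open NumberField IsDedekindDomain

namespace Pool.Agent.Run7.h267.ST

open Pool.Agent.Run7.h787.ST

section ded

variable {R : Type*} [CommRing R] [IsDedekindDomain R]

theorem split_pow (p : HeightOneSpectrum R) (b : Ideal R) (hb : b ≠ 0) :
    ∃ (k : ℕ) (b' : Ideal R), b = p.asIdeal ^ k * b' ∧ ¬ b' ≤ p.asIdeal := by
  have hfin : FiniteMultiplicity p.asIdeal b := by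
    apply FiniteMultiplicity.of_not_isUnit _ hb
    rw [Ideal.isUnit_iff]
    exact p.isPrime.ne_top
  obtain ⟨c, hc, hc'⟩ := hfin.exists_eq_pow_mul_and_not_dvd
  exact ⟨_, c, hc, fun h => hc' (Ideal.dvd_iff_le.2 h)⟩

omit [IsDedekindDomain R] in
theorem not_le_mul {p : HeightOneSpectrum R} {I J : Ideal R} (hI : ¬ I ≤ p.asIdeal)
    (hJ : ¬ J ≤ p.asIdeal) : ¬ I * J ≤ p.asIdeal := by
  intro h
  rcases (Ideal.IsPrime.mul_le p.isPrime).1 h with h | h
  · exact hI h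
  · exact hJ h

omit [IsDedekindDomain R] in
theorem not_le_pow {p : HeightOneSpectrum R} {I : Ideal R} (hI : ¬ I ≤ p.asIdeal) (n : ℕ) :
    ¬ I ^ n ≤ p.asIdeal := by
  intro h
  exact hI (Ideal.IsPrime.le_of_pow_le h)

/-- the core computation -/
theorem core (p : HeightOneSpectrum R) (α : R) (k : ℕ) (J : Ideal R)
    (hα : Ideal.span {α} = p.asIdeal ^ (2 * k) * J) :
    ∃ a₀ t c : R, t ∉ p.asIdeal ∧ c ≠ 0 ∧ α * t = a₀ * c ^ 2 ∧
      ∃ C : Ideal R, ¬ C ≤ p.asIdeal ∧ J * Ideal.span {t} = Ideal.span {a₀} * C := by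
  have hp0 : p.asIdeal ≠ 0 := p.ne_bot
  have hpt : p.asIdeal ≠ ⊤ := p.isPrime.ne_top
  obtain ⟨c, hc1, hc2⟩ := Ideal.exists_mem_pow_notMem_pow_succ p.asIdeal p.ne_bot hpt k
  have hc0 : c ≠ 0 := by
    rintro rfl
    exact hc2 (Ideal.zero_mem _)
  obtain ⟨C, hC⟩ : p.asIdeal ^ k ∣ Ideal.span {c} := by
    rw [Ideal.dvd_span_singleton]
    exact hc1
  have hCp : ¬ C ≤ p.asIdeal := by
    intro h
    apply hc2
    rw [← Ideal.dvd_span_singleton, hC, pow_succ]
    exact mul_dvd_mul_left _ (Ideal.dvd_iff_le.2 h)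
  have hC2 := not_le_pow hCp 2
  obtain ⟨t, ht1, ht2⟩ := SetLike.not_le_iff_exists.1 hC2
  have hdvd : c ^ 2 ∣ α * t := by
    rw [← Ideal.mem_span_singleton]
    have h1 : Ideal.span {c ^ 2} = p.asIdeal ^ (2 * k) * C ^ 2 := by
      rw [← Ideal.span_singleton_pow, hC, mul_pow, ← pow_mul, mul_comm k 2]
    rw [h1]
    have h2 : α ∈ p.asIdeal ^ (2 * k) := by
      have : α ∈ p.asIdeal ^ (2 * k) * J := by
        rw [← hα]
        exact Ideal.mem_span_singleton_self α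
      exact Ideal.mul_le_left this
    exact Ideal.mul_mem_mul h2 ht1
  obtain ⟨a₀, ha₀⟩ := hdvd
  refine ⟨a₀, t, c, ht2, hc0, by rw [ha₀]; ring, C ^ 2, hC2, ?_⟩
  have hsq : Ideal.span {c ^ 2} = p.asIdeal ^ (2 * k) * C ^ 2 := by
    rw [← Ideal.span_singleton_pow, hC, mul_pow, ← pow_mul, mul_comm k 2]
  have h1 : p.asIdeal ^ (2 * k) * (J * Ideal.span {t}) =
      p.asIdeal ^ (2 * k) * (Ideal.span {a₀} * C ^ 2) := by
    calc p.asIdeal ^ (2 * k) * (J * Ideal.span {t})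
        = Ideal.span {α} * Ideal.span {t} := by rw [hα, mul_assoc]
      _ = Ideal.span {c ^ 2 * a₀} := by rw [Ideal.span_singleton_mul_span_singleton, ha₀]
      _ = Ideal.span {c ^ 2} * Ideal.span {a₀} := by
          rw [Ideal.span_singleton_mul_span_singleton]
      _ = p.asIdeal ^ (2 * k) * C ^ 2 * Ideal.span {a₀} := by rw [hsq]
      _ = p.asIdeal ^ (2 * k) * (Ideal.span {a₀} * C ^ 2) := by
          rw [mul_assoc, mul_comm (C ^ 2)]
  exact mul_left_cancel₀ (pow_ne_zero _ hp0) h1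

theorem even_core (p : HeightOneSpectrum R) (α : R) (k : ℕ) (J : Ideal R)
    (hα : Ideal.span {α} = p.asIdeal ^ (2 * k) * J) (hJ : ¬ J ≤ p.asIdeal) :
    ∃ a t c : R, a ∉ p.asIdeal ∧ t ∉ p.asIdeal ∧ c ≠ 0 ∧ α * t ^ 2 = a * c ^ 2 := by
  obtain ⟨a₀, t, c, ht, hc, h, C, hC, hJC⟩ := core p α k J hα
  refine ⟨a₀ * t, t, c, ?_, ht, hc, by rw [pow_two t, ← mul_assoc, h]; ring⟩
  intro hmem
  have ha₀ : a₀ ∈ p.asIdeal := by
    rcases p.isPrime.mem_or_mem hmem with h | h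
    · exact h
    · exact absurd h ht
  have h1 : J * Ideal.span {t} ≤ p.asIdeal := by
    rw [hJC]
    exact le_trans Ideal.mul_le_left ((Ideal.span_singleton_le_iff_mem _).2 ha₀)
  refine not_le_mul hJ ?_ h1
  rw [Ideal.span_singleton_le_iff_mem]
  exact ht

theorem odd_core (p : HeightOneSpectrum R) (α : R) (k : ℕ) (J : Ideal R)
    (hα : Ideal.span {α} = p.asIdeal ^ (2 * k) * (p.asIdeal * J)) (hJ : ¬ J ≤ p.asIdeal) :
    ∃ π t c : R, π ∈ p.asIdeal ∧ π ∉ p.asIdeal ^ 2 ∧ t ∉ p.asIdeal ∧ c ≠ 0 ∧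
      α * t ^ 2 = π * c ^ 2 := by
  obtain ⟨a₀, t, c, ht, hc, h, C, hC, hJC⟩ := core p α k _ hα
  have hp0 : p.asIdeal ≠ 0 := p.ne_bot
  have ht' : ¬ Ideal.span {t} ≤ p.asIdeal := by
    rw [Ideal.span_singleton_le_iff_mem]
    exact ht
  refine ⟨a₀ * t, t, c, ?_, ?_, ht, hc, by rw [pow_two t, ← mul_assoc, h]; ring⟩
  · have h1 : Ideal.span {a₀} * C ≤ p.asIdeal := by
      rw [← hJC]
      exact le_trans Ideal.mul_le_left Ideal.mul_le_left
    rcases (Ideal.IsPrime.mul_le p.isPrime).1 h1 with h2 | h2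
    · exact Ideal.mul_mem_right _ _ ((Ideal.span_singleton_le_iff_mem _).1 h2)
    · exact absurd h2 hC
  · intro hmem
    rw [← Ideal.dvd_span_singleton] at hmem
    obtain ⟨D, hD⟩ := hmem
    have h1 : p.asIdeal * (J * Ideal.span {t} * Ideal.span {t}) =
        p.asIdeal * (p.asIdeal * (D * C)) := by
      calc p.asIdeal * (J * Ideal.span {t} * Ideal.span {t})
          = (p.asIdeal * J * Ideal.span {t}) * Ideal.span {t} := by ring
        _ = Ideal.span {a₀} * C * Ideal.span {t} := by rw [hJC]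
        _ = Ideal.span {a₀ * t} * C := by
            rw [← Ideal.span_singleton_mul_span_singleton]; ring
        _ = p.asIdeal * (p.asIdeal * (D * C)) := by rw [hD]; ring
    have h2 := mul_left_cancel₀ hp0 h1
    have h3 : J * Ideal.span {t} * Ideal.span {t} ≤ p.asIdeal := by
      rw [h2]
      exact Ideal.mul_le_left
    exact not_le_mul (not_le_mul hJ ht') ht' h3

end ded

theorem prod_not_le {R : Type*} [CommRing R] [IsDedekindDomain R]
    (S : Finset (HeightOneSpectrum R)) (n : HeightOneSpectrum R → ℕ)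
    (p : HeightOneSpectrum R) (hp : p ∉ S) : ¬ ∏ r ∈ S, r.asIdeal ^ n r ≤ p.asIdeal := by
  intro h
  obtain ⟨r, hr, hr'⟩ := (Ideal.IsPrime.prod_le p.isPrime).1 h
  have h1 : r.asIdeal ≤ p.asIdeal := Ideal.IsPrime.le_of_pow_le hr'
  have h2 : r.asIdeal = p.asIdeal := (r.isMaximal.eq_of_le p.isPrime.ne_top h1)
  have h3 : r = p := HeightOneSpectrum.ext h2
  exact hp (h3 ▸ hr)

theorem t_CLS : S_CLS := by
  intro K _ _ _ S₀ hS q hq
  obtain ⟨β, b, n, hβ, hspan⟩ := hS.2 q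
  -- choose the sign
  obtain ⟨α, hα0, hα⟩ : ∃ α : 𝓞 K, 0 < algebraMap K ℝ (α : K) ∧ Ideal.span {α} = Ideal.span {β} := by
    have hne : algebraMap K ℝ (β : K) ≠ 0 := by
      intro h
      have h1 : (β : K) = 0 := (algebraMap K ℝ).injective (by rw [h, map_zero])
      exact hβ (by exact_mod_cast h1)
    rcases lt_or_gt_of_ne hne with h | h
    · refine ⟨-β, ?_, Ideal.span_singleton_neg β⟩
      have : ((-β : 𝓞 K) : K) = -(β : K) := by simp
      rw [this, map_neg]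
      linarith
    · exact ⟨β, h, rfl⟩
  rw [← hα] at hspan
  have hb : b ≠ 0 := by
    rintro rfl
    have h1 : Ideal.span {α} = (0 : Ideal (𝓞 K)) := by
      rw [hspan]; simp
    rw [hα] at h1
    have h2 : β ∈ (0 : Ideal (𝓞 K)) := by
      rw [← h1]; exact Ideal.mem_span_singleton_self β
    exact hβ (by simpa using h2)
  refine ⟨α, hα0, ?_, ?_⟩
  · obtain ⟨k, b', hbb, hb'⟩ := split_pow q b hb
    refine odd_core q α k (b' ^ 2 * ∏ p ∈ S₀, p.asIdeal ^ n p) ?_ ?_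
    · rw [hspan, hbb]; ring
    · exact not_le_mul (not_le_pow hb' 2) (prod_not_le S₀ n q hq)
  · intro p hp hpq
    obtain ⟨k, b', hbb, hb'⟩ := split_pow p b hb
    refine even_core p α k (q.asIdeal * b' ^ 2 * ∏ p ∈ S₀, p.asIdeal ^ n p) ?_ ?_
    · rw [hspan, hbb]; ring
    · refine not_le_mul (not_le_mul ?_ (not_le_pow hb' 2)) (prod_not_le S₀ n p hp)
      intro h
      have h2 : q.asIdeal = p.asIdeal := (q.isMaximal.eq_of_le p.isPrime.ne_top h)
      exact hpq (HeightOneSpectrum.ext h2.symm)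

end Pool.Agent.Run7.h267.ST
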